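import Mathlib
import Pool.Agent.Helper543.RadiiLow

/-! Upper bound for the Ramsey-type number of distinct circumradii. -/

namespace Pool.Agent.Results.MP_75c8a4_co.UpperFive

/-- the Euclidean plane -/
abbrev Plane := EuclideanSpace ℝ (Fin 2)

/-- the points of `T` lie on a common circle of radius `r` -/
def HasRadius (T : Finset Plane) (r : ℝ) : Prop :=
  ∃ c : Plane, (T : Set Plane) ⊆ Metric.sphere c r

/-- general position: no three points collinear, no four points on a circle -/
def GenPos (X : Finset Plane) : Prop :=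
  (∀ T ⊆ X, T.card = 3 → ¬ Collinear ℝ (T : Set Plane)) ∧
  (∀ T ⊆ X, T.card = 4 → ¬ ∃ (c : Plane) (r : ℝ), (T : Set Plane) ⊆ Metric.sphere c r)

/-- different triples of points of `Y` never lie on circles of the same radius -/
def DistinctRadii (Y : Finset Plane) : Prop :=
  ∀ S ⊆ Y, ∀ T ⊆ Y, S.card = 3 → T.card = 3 → ∀ r, HasRadius S r → HasRadius T r → S = T

/-- the least `m` such that every `m`-point set in general position contains a `k`-point subset
with pairwise distinct circumradii -/
noncomputable def nk (k : ℕ) : ℕ :=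
  sInf {m | ∀ X : Finset Plane, X.card = m → GenPos X → ∃ Y ⊆ X, Y.card = k ∧ DistinctRadii Y}

/-- Every set of at least `10 k ^ 5` points in general position contains `k` points with pairwise
distinct circumradii; in particular `nk k ≤ 10 k ^ 5`. -/
theorem result : ∀ k : ℕ, 1 ≤ k →
    (∀ X : Finset Plane, 10 * k ^ 5 ≤ X.card → GenPos X →
      ∃ Y ⊆ X, Y.card = k ∧ DistinctRadii Y) ∧ nk k ≤ 10 * k ^ 5 := by
  intro k hk
  refine ⟨fun X hX hgp => ?_, Pool.Agent.Helper543.RadiiLow.nk_le k hk⟩
  exact Pool.Agent.Helper543.RadiiLow.mem_nk k X.card hk hX X rfl hgp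

end Pool.Agent.Results.MP_75c8a4_co.UpperFive
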